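import Pool.Agent.Helper10.Qc.Stmts

set_option autoImplicit false

namespace Pool.Agent.Helper10.Qc

open Finset Pool.Agent.Helper19.Qh Pool.Agent.Helper19.Qc

theorem c123_tsum {ι : Type} (f : ι → ℝ) (c : ℝ) (hf : ∀ i, 0 ≤ f i)
    (h : ∀ s : Finset ι, ∑ i ∈ s, f i ≤ c) :
    ∑' i, ENNReal.ofReal (f i) ≤ ENNReal.ofReal c := by
  rw [ENNReal.tsum_eq_iSup_sum]
  refine iSup_le fun s => ?_
  rw [← ENNReal.ofReal_sum_of_nonneg (fun i _ => hf i)]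
  exact ENNReal.ofReal_le_ofReal (h s)

theorem c123_sum {ι : Type} (x : ι → Q) (B : ℝ) (s : Finset ι) :
    ∃ s' ⊆ s, (∀ i ∈ s', 0 < B - ‖x i‖ ^ 2) ∧
      ∑ i ∈ s, (max (B - ‖x i‖ ^ 2) 0) ^ 2 = ∑ i ∈ s', (B - ‖x i‖ ^ 2) ^ 2 := by
  classical
  refine ⟨s.filter (fun i => 0 < B - ‖x i‖ ^ 2), filter_subset _ _,
    fun i hi => (mem_filter.1 hi).2, ?_⟩
  rw [sum_filter]
  refine sum_congr rfl fun i _ => ?_
  split_ifs with h
  · rw [max_eq_left h.le]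
  · rw [max_eq_right (not_lt.1 h)]
    norm_num

theorem c123_sq {ι : Type} (y : ι → ℝ) (s : Finset ι) (h : ∀ i ∈ s, 0 < y i) :
    ∑ i ∈ s, y i ^ 2 ≤ (∑ i ∈ s, y i) ^ 2 := by
  rw [sq (∑ i ∈ s, y i), sum_mul]
  refine sum_le_sum fun i hi => ?_
  rw [sq]
  exact mul_le_mul_of_nonneg_left (single_le_sum (fun j hj => (h j hj).le) hi) (h i hi).le

theorem c123_pos {ι : Type} (x : ι → Q) (B : ℝ) (s : Finset ι)
    (h : ∀ i ∈ s, 0 < B - ‖x i‖ ^ 2) (hB : B ≤ 0) : s = ∅ := by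
  rw [eq_empty_iff_forall_notMem]
  intro i hi
  have h1 := h i hi
  have h2 : 0 ≤ ‖x i‖ ^ 2 := by positivity
  linarith

theorem c123_small (h2 : ST_S1) {ι : Type} (x : ι → Q) (B : ℝ) (s : Finset ι)
    (h : ∀ i ∈ s, 0 < B - ‖x i‖ ^ 2) (hB : B ≤ 1 / 2)
    (h1 : ∀ i j, i ≠ j → 1 ≤ ‖x i - x j‖ ^ 2) :
    ∑ i ∈ s, (B - ‖x i‖ ^ 2) ^ 2 ≤ (max B 0) ^ 2 := by
  rcases le_or_gt B 0 with h0 | h0
  · rw [c123_pos x B s h h0, sum_empty]
    positivity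
  · have h3 := h2 ι s x B 1 (fun i _ j _ hij => h1 i j hij) h0.le hB
    have h4 := c123_sq (fun i => B - ‖x i‖ ^ 2) s h
    have h5 : 0 ≤ ∑ i ∈ s, (B - ‖x i‖ ^ 2) := sum_nonneg fun i hi => (h i hi).le
    rw [max_eq_left h0.le]
    exact h4.trans (pow_le_pow_left₀ h5 h3 2)

theorem c123_core (hG : ST_GRAM) {ι : Type} (x : ι → Q) (B M K : ℝ) (s : Finset ι)
    (h : ∀ i ∈ s, 0 < B - ‖x i‖ ^ 2) (h1 : ∀ i j, i ≠ j → 1 ≤ ‖x i - x j‖ ^ 2)
    (hB : 1 / 2 < B) (hK : ∑ i ∈ s, (B - ‖x i‖ ^ 2) ≤ K) (hM : B ^ 2 ≤ M)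
    (hq : ∀ t, B ≤ t → t ≤ K → (2 * B - 1) * t ^ 2 ≤ M * (2 * t - 1)) :
    ∑ i ∈ s, (B - ‖x i‖ ^ 2) ^ 2 ≤ M := by
  have h4 := c123_sq (fun i => B - ‖x i‖ ^ 2) s h
  have h5 : 0 ≤ ∑ i ∈ s, (B - ‖x i‖ ^ 2) := sum_nonneg fun i hi => (h i hi).le
  rcases le_or_gt (∑ i ∈ s, (B - ‖x i‖ ^ 2)) B with h6 | h6
  · exact h4.trans ((pow_le_pow_left₀ h5 h6 2).trans hM)
  · have h7 := hG ι s x B 1 h (fun i _ j _ hij => h1 i j hij)
    have h8 := hq _ h6.le hK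
    have h9 : 0 < 2 * ∑ i ∈ s, (B - ‖x i‖ ^ 2) - 1 := by linarith
    exact le_of_mul_le_mul_right (h7.trans h8) h9

theorem c123_col (h2 : ST_S1) {ι : Type} {n : ℕ} (x : ι → Q) (col : ι → Fin n) (B : ℝ)
    (s : Finset ι) (hB0 : 0 ≤ B) (hB : B ≤ 1)
    (hc : ∀ i j, i ≠ j → col i = col j → 2 ≤ ‖x i - x j‖ ^ 2) :
    ∑ i ∈ s, (B - ‖x i‖ ^ 2) ≤ n * B := by
  classical
  rw [← sum_fiberwise s col]
  calc ∑ j : Fin n, ∑ i ∈ s with col i = j, (B - ‖x i‖ ^ 2) ≤ ∑ _j : Fin n, B := by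
        refine sum_le_sum fun j _ => ?_
        refine h2 ι _ x B 2 (fun i hi i' hi' hne => hc i i' hne ?_) hB0 (by linarith)
        rw [(mem_filter.1 hi).2, (mem_filter.1 hi').2]
    _ = n * B := by rw [sum_const, card_univ, Fintype.card_fin, nsmul_eq_mul]

theorem st_C1 (_h1 : ST_GRAM) (h2 : ST_S1) : ST_C1 := by
  intro ι x B hB h1
  refine c123_tsum _ _ (fun i => by positivity) fun s => ?_
  obtain ⟨s', -, hpos, hsum⟩ := c123_sum x B s
  rw [hsum]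
  exact c123_small h2 x B s' hpos hB h1

theorem st_C2 (hG : ST_GRAM) (h2 : ST_S1) : ST_C2 := by
  intro ι x col B hB h1 hc
  refine c123_tsum _ _ (fun i => by positivity) fun s => ?_
  obtain ⟨s', -, hpos, hsum⟩ := c123_sum x B s
  rw [hsum]
  rcases le_or_gt B (1 / 2) with h3 | h3
  · exact c123_small h2 x B s' hpos h3 h1
  · rw [max_eq_left (by linarith)]
    refine c123_core hG x B (B ^ 2) ((2 : ℕ) * B) s' hpos h1 h3
      (c123_col h2 x col B s' (by linarith) (by linarith) hc) (le_refl _) ?_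
    intro t ht htK
    push_cast at htK
    have h4 : (2 * B - 1) * t ≤ B := by nlinarith
    nlinarith [mul_nonneg (sub_nonneg.2 ht) (sub_nonneg.2 h4)]

theorem st_C3 (hG : ST_GRAM) (h2 : ST_S1) : ST_C3 := by
  intro ι x col B hB h1 hc
  refine c123_tsum _ _ (fun i => by positivity) fun s => ?_
  obtain ⟨s', -, hpos, hsum⟩ := c123_sum x B s
  rw [hsum]
  rcases le_or_gt B (2 / 3) with h3 | h3
  · have hP : Psi 2 B = (max B 0) ^ 2 := by
      show (if B ≤ 2 / 3 then (max B 0) ^ 2 else 9 * B ^ 2 * (2 * B - 1) / (6 * B - 1)) = _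
      rw [if_pos h3]
    rw [hP]
    rcases le_or_gt B (1 / 2) with h4 | h4
    · exact c123_small h2 x B s' hpos h4 h1
    · rw [max_eq_left (by linarith)]
      refine c123_core hG x B (B ^ 2) ((3 : ℕ) * B) s' hpos h1 h4
        (c123_col h2 x col B s' (by linarith) (by linarith) hc) (le_refl _) ?_
      intro t ht htK
      push_cast at htK
      have h5 : (2 * B - 1) * t ≤ B := by nlinarith
      nlinarith [mul_nonneg (sub_nonneg.2 ht) (sub_nonneg.2 h5)]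
  · have hP : Psi 2 B = 9 * B ^ 2 * (2 * B - 1) / (6 * B - 1) := by
      show (if B ≤ 2 / 3 then (max B 0) ^ 2 else 9 * B ^ 2 * (2 * B - 1) / (6 * B - 1)) = _
      rw [if_neg (not_le.2 h3)]
    rw [hP]
    have h6B : 0 < 6 * B - 1 := by linarith
    refine c123_core hG x B _ ((3 : ℕ) * B) s' hpos h1 (by linarith)
      (c123_col h2 x col B s' (by linarith) (by linarith) hc) ?_ ?_
    · rw [le_div_iff₀ h6B]
      nlinarith [mul_pos (by linarith : 0 < B) (by linarith : 0 < B)]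
    · intro t ht htK
      push_cast at htK
      rw [div_mul_eq_mul_div, le_div_iff₀ h6B]
      have h7 : 3 * B ≤ t * (6 * B - 1) := by nlinarith
      have h8 : 0 ≤ (3 * B - t) * (2 * B - 1) * (t * (6 * B - 1) - 3 * B) :=
        mul_nonneg (mul_nonneg (by linarith) (by linarith)) (by linarith)
      nlinarith
end Pool.Agent.Helper10.Qc
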